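import Mathlib

/-!
# `|A·A + A| ≥ |A + A|` for sets of reals with gaps at least one

If the diameter of a finite set `A` of reals is at most `2|m|` times the least gap of `A`
for some `m` in `A`, then `|A·A + A| ≥ |A + mA| ≥ |A + A|`.  This covers every finite set
whose distinct elements differ by at least `1`, in particular every finite set of integers.
Moreover `|A·A + A| ≥ |A|²` as soon as some element of `A` is not a quotient of two
differences of elements of `A`.
-/

namespace Pool.Agent.Results.MP_2b52df_co.SeparatedSets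

open Finset Pointwise

/-- The counting lemma: `X ⊆ [-M, M]`, `Y` with gaps at least one. -/
lemma count (X Y : Finset ℝ) (M : ℝ) (hM : 0 < M) (hX : ∀ x ∈ X, |x| ≤ M)
    (hY : ∀ y ∈ Y, ∀ z ∈ Y, y ≠ z → 1 ≤ |y - z|) (hne : Y.Nonempty) :
    (X.filter (fun x => 0 < x)).card * Y.card + (X.filter (fun x => ¬ 0 < x)).card
      + (if (0:ℝ) ∈ X then (Y.filter (fun y => y - 1 ∉ Y)).card - 1 else 0)
      ≤ ((X ×ˢ Y).image (fun p => p.1 + M * p.2)).card := by
  classical
  set a0 := Y.min' hne with ha0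
  have ha0Y : a0 ∈ Y := Finset.min'_mem _ _
  have hmin : ∀ y ∈ Y, a0 ≤ y := fun y hy => Finset.min'_le _ _ hy
  set T1 : Finset (ℝ × ℝ) := (X.filter (fun x => 0 < x)) ×ˢ Y with hT1
  set T2 : Finset (ℝ × ℝ) := (X.filter (fun x => ¬ 0 < x)) ×ˢ {a0} with hT2
  set T3 : Finset (ℝ × ℝ) := (X.filter (fun x => x = 0)) ×ˢ
      ((Y.filter (fun y => y - 1 ∉ Y)).erase a0) with hT3
  have hinj : Set.InjOn (fun p : ℝ × ℝ => p.1 + M * p.2) ((T1 ∪ (T2 ∪ T3) : Finset (ℝ × ℝ)) : Set (ℝ × ℝ)) := by
    have key : ∀ x y x' y' : ℝ, (x, y) ∈ T1 ∪ (T2 ∪ T3) → (x', y') ∈ T1 ∪ (T2 ∪ T3) →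
        x + M * y = x' + M * y' → y < y' → False := by
      intro x y x' y' h h' he hlt
      have hxX : x ∈ X ∧ y ∈ Y := by
        simp only [hT1, hT2, hT3, mem_union, mem_product, mem_filter, mem_singleton, mem_erase] at h
        rcases h with h | h | h
        · exact ⟨h.1.1, h.2⟩
        · exact ⟨h.1.1, h.2 ▸ ha0Y⟩
        · exact ⟨h.1.1, h.2.2.1⟩
      have hx'X : x' ∈ X ∧ y' ∈ Y := by
        simp only [hT1, hT2, hT3, mem_union, mem_product, mem_filter, mem_singleton, mem_erase] at h'
        rcases h' with h | h | h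
        · exact ⟨h.1.1, h.2⟩
        · exact ⟨h.1.1, h.2 ▸ ha0Y⟩
        · exact ⟨h.1.1, h.2.2.1⟩
      have h1 : 1 ≤ |y' - y| := hY y' hx'X.2 y hxX.2 (ne_of_gt hlt)
      rw [abs_of_pos (by linarith)] at h1
      have h2 : x - x' = M * (y' - y) := by linarith
      have h3 : M ≤ M * (y' - y) := by nlinarith
      have h4 := abs_le.mp (hX x hxX.1)
      simp only [hT1, hT2, hT3, mem_union, mem_product, mem_filter, mem_singleton, mem_erase] at h'
      rcases h' with h' | h' | h'
      · have := h'.1.2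
        linarith [h4.2]
      · have := hmin y hxX.2
        rw [h'.2] at hlt
        linarith
      · have hx0 : x' = 0 := h'.1.2
        have h5 : M * (y' - y) ≤ M * 1 := by rw [← h2, hx0]; linarith [h4.2]
        have h6 : y' - y ≤ 1 := le_of_mul_le_mul_left h5 hM
        have h7 : y' - 1 = y := by linarith
        exact h'.2.2.2 (h7 ▸ hxX.2)
    rintro ⟨x, y⟩ h ⟨x', y'⟩ h' he
    have h := Finset.mem_coe.mp h
    have h' := Finset.mem_coe.mp h'
    simp only at he
    rcases lt_trichotomy y y' with hlt | heq | hgt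
    · exact (key x y x' y' h h' he hlt).elim
    · subst heq
      have : x = x' := by linarith
      rw [this]
    · exact (key x' y' x y h' h he.symm hgt).elim
  have hsub : T1 ∪ (T2 ∪ T3) ⊆ X ×ˢ Y := by
    rintro ⟨x, y⟩ h
    simp only [hT1, hT2, hT3, mem_union, mem_product, mem_filter, mem_singleton, mem_erase] at h ⊢
    rcases h with h | h | h
    · exact ⟨h.1.1, h.2⟩
    · exact ⟨h.1.1, h.2 ▸ ha0Y⟩
    · exact ⟨h.1.1, h.2.2.1⟩
  have hcard : ((T1 ∪ (T2 ∪ T3)).image (fun p : ℝ × ℝ => p.1 + M * p.2)).card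
      = (T1 ∪ (T2 ∪ T3)).card := Finset.card_image_of_injOn hinj
  have hle : (T1 ∪ (T2 ∪ T3)).card ≤ ((X ×ˢ Y).image (fun p => p.1 + M * p.2)).card := by
    rw [← hcard]
    exact Finset.card_le_card (Finset.image_subset_image hsub)
  refine le_trans ?_ hle
  have hd1 : Disjoint T1 (T2 ∪ T3) := by
    rw [Finset.disjoint_left]
    rintro ⟨x, y⟩ h h'
    simp only [hT1, hT2, hT3, mem_union, mem_product, mem_filter, mem_singleton, mem_erase] at h h'
    rcases h' with h' | h'
    · exact h'.1.2 h.1.2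
    · have := h.1.2
      rw [h'.1.2] at this
      exact lt_irrefl _ this
  have hd2 : Disjoint T2 T3 := by
    rw [Finset.disjoint_left]
    rintro ⟨x, y⟩ h h'
    simp only [hT2, hT3, mem_product, mem_filter, mem_singleton, mem_erase] at h h'
    exact h'.2.1 h.2
  rw [Finset.card_union_of_disjoint hd1, Finset.card_union_of_disjoint hd2]
  have e1 : T1.card = (X.filter (fun x => 0 < x)).card * Y.card := by
    rw [hT1, Finset.card_product]
  have e2 : T2.card = (X.filter (fun x => ¬ 0 < x)).card := by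
    rw [hT2, Finset.card_product]; simp
  have e3 : (if (0:ℝ) ∈ X then (Y.filter (fun y => y - 1 ∉ Y)).card - 1 else 0) ≤ T3.card := by
    split_ifs with h0
    · rw [hT3, Finset.card_product]
      have : X.filter (fun x => x = 0) = {0} := by
        ext x
        simp only [mem_filter, mem_singleton]
        constructor
        · exact fun h => h.2
        · rintro rfl; exact ⟨h0, rfl⟩
      rw [this, Finset.card_singleton, one_mul]
      exact Finset.pred_card_le_card_erase
    · exact Nat.zero_le _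
  rw [e1, e2]
  omega

lemma sumset_le (A : Finset ℝ) :
    2 * (A + A).card ≤ A.card * (A.card + 1) := by
  classical
  have h1 : A + A ⊆ (A.sym2).image (Sym2.lift ⟨fun x y => x + y, fun x y => add_comm x y⟩) := by
    intro s hs
    obtain ⟨x, hx, y, hy, rfl⟩ := Finset.mem_add.mp hs
    exact Finset.mem_image.mpr ⟨s(x, y), Finset.mk_mem_sym2_iff.mpr ⟨hx, hy⟩, rfl⟩
  have h2 := (Finset.card_le_card h1).trans Finset.card_image_le
  rw [Finset.card_sym2, Nat.choose_two_right] at h2
  have h3 : 2 * ((A.card + 1) * (A.card + 1 - 1) / 2) ≤ (A.card + 1) * (A.card + 1 - 1) :=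
    Nat.mul_div_le _ _
  have h4 : (A.card + 1) * (A.card + 1 - 1) = A.card * (A.card + 1) := by
    rw [Nat.add_sub_cancel]; ring
  omega

lemma sumset_le' (A : Finset ℝ) (hq : (A.filter (fun y => y - 1 ∈ A)).Nonempty) :
    2 * ((A + A).card + ((A.filter (fun y => y - 1 ∈ A)).card - 1)) ≤ A.card * (A.card + 1) := by
  classical
  obtain ⟨b, hb⟩ := hq
  set Q := A.filter (fun y => y - 1 ∈ A) with hQ
  have hbA : b ∈ A ∧ b - 1 ∈ A := Finset.mem_filter.mp hb
  set D : Finset (Sym2 ℝ) := (Q.erase b).image (fun a => s(a - 1, b)) with hD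
  have hDc : D.card = Q.card - 1 := by
    rw [hD, Finset.card_image_of_injective, Finset.card_erase_of_mem hb]
    intro a a' h
    have h' : s(a - 1, b) = s(a' - 1, b) := h
    have := Sym2.congr_left.mp h'
    linarith
  have hDs : D ⊆ A.sym2 := by
    intro s hs
    obtain ⟨a, ha, rfl⟩ := Finset.mem_image.mp hs
    have := Finset.mem_filter.mp (Finset.mem_of_mem_erase ha)
    exact Finset.mk_mem_sym2_iff.mpr ⟨this.2, hbA.1⟩
  have h1 : A + A ⊆ (A.sym2 \ D).image (Sym2.lift ⟨fun x y => x + y, fun x y => add_comm x y⟩) := by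
    intro s hs
    obtain ⟨x, hx, y, hy, rfl⟩ := Finset.mem_add.mp hs
    by_cases hxy : s(x, y) ∈ D
    · obtain ⟨a, ha, he⟩ := Finset.mem_image.mp hxy
      have ha' := Finset.mem_filter.mp (Finset.mem_of_mem_erase ha)
      have hab : a ≠ b := Finset.ne_of_mem_erase ha
      refine Finset.mem_image.mpr ⟨s(a, b - 1), Finset.mem_sdiff.mpr
        ⟨Finset.mk_mem_sym2_iff.mpr ⟨ha'.1, hbA.2⟩, ?_⟩, ?_⟩
      · intro hm
        obtain ⟨c, hc, hce⟩ := Finset.mem_image.mp hm
        have hcb : c ≠ b := Finset.ne_of_mem_erase hc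
        rcases Sym2.eq_iff.mp hce with ⟨h1, h2⟩ | ⟨h1, h2⟩
        · linarith
        · exact hab h2.symm
      · have hs : Sym2.lift ⟨fun x y : ℝ => x + y, fun x y => add_comm x y⟩ s(a - 1, b)
            = Sym2.lift ⟨fun x y : ℝ => x + y, fun x y => add_comm x y⟩ s(x, y) := by rw [he]
        simp only [Sym2.lift_mk] at hs ⊢
        linarith
    · exact Finset.mem_image.mpr ⟨s(x, y), Finset.mem_sdiff.mpr
        ⟨Finset.mk_mem_sym2_iff.mpr ⟨hx, hy⟩, hxy⟩, rfl⟩
  have h2 := (Finset.card_le_card h1).trans Finset.card_image_le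
  have h5 : (A.sym2 \ D).card = A.sym2.card - D.card := Finset.card_sdiff_of_subset hDs
  have h6 : D.card ≤ A.sym2.card := Finset.card_le_card hDs
  rw [Finset.card_sym2, Nat.choose_two_right] at h5 h6
  have h3 : 2 * ((A.card + 1) * (A.card + 1 - 1) / 2) ≤ (A.card + 1) * (A.card + 1 - 1) :=
    Nat.mul_div_le _ _
  have h4 : (A.card + 1) * (A.card + 1 - 1) = A.card * (A.card + 1) := by
    rw [Nat.add_sub_cancel]; ring
  omega

lemma final (A X : Finset ℝ) (M : ℝ) (hM : 0 < M) (hX : ∀ x ∈ X, |x| ≤ M)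
    (hA : ∀ x ∈ A, ∀ y ∈ A, x ≠ y → 1 ≤ |x - y|) (hne : A.Nonempty) (hc : X.card = A.card)
    (N : ℕ) (hN : ((X ×ˢ A).image (fun p => p.1 + M * p.2)).card ≤ N)
    (h3 : X.card ≠ 1 ∨ (0:ℝ) ∉ X) : (A + A).card ≤ N := by
  classical
  have c1 := count X A M hM hX hA hne
  have hX' : ∀ x ∈ -X, |x| ≤ M := by
    intro x hx
    have := hX _ (Finset.mem_neg'.mp hx)
    rwa [abs_neg] at this
  have hA' : ∀ x ∈ -A, ∀ y ∈ -A, x ≠ y → 1 ≤ |x - y| := by
    intro x hx y hy hxy
    have := hA _ (Finset.mem_neg'.mp hx) _ (Finset.mem_neg'.mp hy) (by simpa using hxy)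
    rw [show -x - -y = -(x - y) by ring, abs_neg] at this
    exact this
  have c2 := count (-X) (-A) M hM hX' hA' (hne.neg)
  have himg : (((-X) ×ˢ (-A)).image (fun p : ℝ × ℝ => p.1 + M * p.2)).card
      ≤ ((X ×ˢ A).image (fun p : ℝ × ℝ => p.1 + M * p.2)).card := by
    rw [← Finset.card_neg ((X ×ˢ A).image (fun p : ℝ × ℝ => p.1 + M * p.2))]
    apply Finset.card_le_card
    intro s hs
    obtain ⟨⟨x, y⟩, hxy, rfl⟩ := Finset.mem_image.mp hs
    have hxy' := Finset.mem_product.mp hxy
    refine Finset.mem_neg'.mpr (Finset.mem_image.mpr ⟨(-x, -y), Finset.mem_product.mpr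
      ⟨Finset.mem_neg'.mp hxy'.1, Finset.mem_neg'.mp hxy'.2⟩, ?_⟩)
    simp only
    ring
  have hf : (-X).filter (fun x => 0 < x) = -(X.filter (fun x => x < 0)) := by
    ext x; simp [Finset.mem_neg']
  have hfc : ((-X).filter (fun x => 0 < x)).card = (X.filter (fun x => x < 0)).card := by
    rw [hf, Finset.card_neg]
  have s1 := Finset.card_filter_add_card_filter_not (s := X) (fun x : ℝ => 0 < x)
  have s2 := Finset.card_filter_add_card_filter_not (s := -X) (fun x : ℝ => 0 < x)
  have s3 := Finset.card_filter_add_card_filter_not (s := A) (fun y : ℝ => y - 1 ∈ A)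
  rw [Finset.card_neg] at s2
  rw [Finset.card_neg] at c2
  have hn : 1 ≤ A.card := hne.card_pos
  set n := A.card with hnd
  set p := (X.filter (fun x => 0 < x)).card with hp
  set r := ((-X).filter (fun x => 0 < x)).card with hr
  set p' := (X.filter (fun x => ¬ 0 < x)).card with hp'
  set r' := ((-X).filter (fun x => ¬ 0 < x)).card with hr'
  set q := (A.filter (fun y => y - 1 ∈ A)).card with hq
  set ρ := (A.filter (fun y => y - 1 ∉ A)).card with hρ
  have t1 := sumset_le A
  rw [← hnd] at t1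
  have k1 : p * n + p' ≤ N := by omega
  have k2 : r * n + r' ≤ N := by omega
  by_cases hpn : n ≤ 2 * p
  · have : n * (n + 1) ≤ 2 * (p * n + p') := by
      have e : p' = n - p := by omega
      zify [show p ≤ n by omega] at e ⊢
      rw [e]
      have : (n:ℤ) ≤ 2 * p := by exact_mod_cast hpn
      have h1n : (1:ℤ) ≤ n := by exact_mod_cast hn
      nlinarith
    omega
  by_cases hrn : n ≤ 2 * r
  · have : n * (n + 1) ≤ 2 * (r * n + r') := by
      have e : r' = n - r := by omega
      zify [show r ≤ n by omega] at e ⊢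
      rw [e]
      have : (n:ℤ) ≤ 2 * r := by exact_mod_cast hrn
      have h1n : (1:ℤ) ≤ n := by exact_mod_cast hn
      nlinarith
    omega
  -- the balanced case
  have hz : X.card ≤ p + r + (if (0:ℝ) ∈ X then 1 else 0) := by
    have hcov : X ⊆ (X.filter (fun x => 0 < x)) ∪ ((X.filter (fun x => x < 0)) ∪
        (X.filter (fun x => x = 0))) := by
      intro x hx
      simp only [mem_union, mem_filter]
      rcases lt_trichotomy x 0 with h | h | h
      · exact Or.inr (Or.inl ⟨hx, h⟩)
      · exact Or.inr (Or.inr ⟨hx, h⟩)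
      · exact Or.inl ⟨hx, h⟩
    have h1 := Finset.card_le_card hcov
    have h2 := Finset.card_union_le (X.filter (fun x => 0 < x)) ((X.filter (fun x => x < 0)) ∪
        (X.filter (fun x => x = 0)))
    have h3 := Finset.card_union_le (X.filter (fun x => x < 0)) (X.filter (fun x => x = 0))
    have h4 : (X.filter (fun x => x = 0)).card ≤ (if (0:ℝ) ∈ X then 1 else 0) := by
      split_ifs with h0
      · have : X.filter (fun x => x = 0) ⊆ {0} := by
          intro x hx
          simp only [mem_filter] at hx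
          simp [hx.2]
        exact (Finset.card_le_card this).trans (by simp)
      · have : X.filter (fun x => x = 0) = ∅ := by
          ext x
          simp only [mem_filter, Finset.notMem_empty, iff_false, not_and]
          intro hx hx0
          exact h0 (hx0 ▸ hx)
        rw [this]; simp
    omega
  by_cases h0 : (0:ℝ) ∈ X
  · rw [if_pos h0] at hz c1
    have hn3 : 3 ≤ n := by
      rcases h3 with h3 | h3
      · omega
      · exact absurd h0 h3
    have e2 : 2 * p = n - 1 := by omega
    have k3 : p * n + p' + (ρ - 1) ≤ N := by omega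
    have key : 2 * (p * n) = (n - 1) * n := by rw [← e2]; ring
    have hq3 : q + ρ = n := s3
    have e3 : (n - 1) * n = n * n - n := by rw [Nat.sub_mul, one_mul]
    have e4 : n * (n + 1) = n * n + n := by ring
    have e5 : n ≤ n * n := Nat.le_mul_of_pos_left n (by omega)
    rcases Nat.eq_zero_or_pos q with hq0 | hq0
    · omega
    · have t2 := sumset_le' A (Finset.card_pos.mp hq0)
      rw [← hq, ← hnd] at t2
      omega
  · rw [if_neg h0] at hz
    omega

lemma general (A : Finset ℝ) (m : ℝ) (hm : m ∈ A)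
    (h : ∀ x ∈ A, ∀ y ∈ A, ∀ z ∈ A, ∀ w ∈ A, z ≠ w → |x - y| ≤ 2 * |m| * |z - w|) :
    (A + A).card ≤ (A + A.image (fun a => m * a)).card := by
  classical
  have hne : A.Nonempty := ⟨m, hm⟩
  by_cases hoff : A.offDiag.Nonempty
  swap
  · have hsub : A ⊆ {m} := by
      intro x hx
      by_contra hxm
      exact hoff ⟨(x, m), Finset.mem_offDiag.mpr ⟨hx, hm, by simpa using hxm⟩⟩
    have hA : A = {m} := Finset.Subset.antisymm hsub (Finset.singleton_subset_iff.mpr hm)
    rw [hA]; simp
  obtain ⟨⟨z, w⟩, hzw, hmin⟩ := A.offDiag.exists_min_image (fun p => |p.1 - p.2|) hoff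
  have hzw' := Finset.mem_offDiag.mp hzw
  simp only at hzw' hmin
  set δ := |z - w| with hδ
  have hδ0 : 0 < δ := abs_pos.mpr (sub_ne_zero.mpr hzw'.2.2)
  have hm0 : m ≠ 0 := by
    rintro rfl
    have := h z hzw'.1 w hzw'.2.1 z hzw'.1 w hzw'.2.1 hzw'.2.2
    rw [abs_zero, mul_zero, zero_mul] at this
    linarith
  have hM : 0 < |m| * δ := mul_pos (abs_pos.mpr hm0) hδ0
  set c := (A.max' hne + A.min' hne) / 2 with hc
  obtain ⟨σ, hσ, hσm⟩ : ∃ σ : ℝ, |σ| = 1 ∧ |m| = σ * m := by
    rcases lt_or_gt_of_ne hm0 with h1 | h1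
    · exact ⟨-1, by simp, by rw [abs_of_neg h1]; ring⟩
    · exact ⟨1, by simp, by rw [abs_of_pos h1]; ring⟩
  have hσ0 : σ ≠ 0 := by
    rintro rfl
    simp at hσ
  have hD : A.max' hne - A.min' hne ≤ 2 * |m| * δ :=
    (le_abs_self _).trans (h _ (Finset.max'_mem _ _) _ (Finset.min'_mem _ _) z hzw'.1 w hzw'.2.1
      hzw'.2.2)
  have hXinj : Function.Injective (fun x : ℝ => σ * (x - c)) := by
    intro x y hxy
    have := mul_left_cancel₀ hσ0 hxy
    linarith
  have hYinj : Function.Injective (fun y : ℝ => y / δ) := by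
    intro x y hxy
    exact (div_left_inj' hδ0.ne').mp hxy
  have hcard2 : 2 ≤ A.card := by
    have := Finset.one_lt_card.mpr ⟨z, hzw'.1, w, hzw'.2.1, hzw'.2.2⟩
    omega
  have hf := final (A.image (fun y => y / δ)) (A.image (fun x => σ * (x - c))) (|m| * δ) hM
    (by
      intro x hx
      obtain ⟨a, ha, rfl⟩ := Finset.mem_image.mp hx
      have h1 := A.le_max' a ha
      have h2 := A.min'_le a ha
      rw [abs_mul, hσ, one_mul, abs_le]
      constructor <;> rw [hc] <;> nlinarith)
    (by
      intro x hx y hy hxy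
      obtain ⟨a, ha, rfl⟩ := Finset.mem_image.mp hx
      obtain ⟨b, hb, rfl⟩ := Finset.mem_image.mp hy
      have hab : a ≠ b := fun hab => hxy (by rw [hab])
      have := hmin (a, b) (Finset.mem_offDiag.mpr ⟨ha, hb, hab⟩)
      simp only at this
      rw [← sub_div, abs_div, abs_of_pos hδ0, le_div_iff₀ hδ0, one_mul]
      exact this)
    (hne.image _)
    (by rw [Finset.card_image_of_injective _ hXinj, Finset.card_image_of_injective _ hYinj])
    (A + A.image (fun a => m * a)).card
    (by
      refine le_trans (Finset.card_le_card ?_)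
        (Finset.card_image_le (s := A + A.image (fun a => m * a)) (f := fun s => σ * (s - c)))
      intro s hs
      obtain ⟨⟨x, y⟩, hxy, rfl⟩ := Finset.mem_image.mp hs
      have hxy' := Finset.mem_product.mp hxy
      simp only at hxy'
      obtain ⟨a, ha, rfl⟩ := Finset.mem_image.mp hxy'.1
      obtain ⟨b, hb, rfl⟩ := Finset.mem_image.mp hxy'.2
      refine Finset.mem_image.mpr ⟨a + m * b, Finset.mem_add.mpr ⟨a, ha, m * b,
        Finset.mem_image_of_mem _ hb, rfl⟩, ?_⟩
      simp only
      have : |m| * δ * (b / δ) = |m| * b := by field_simp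
      rw [this, hσm]
      ring)
    (Or.inl (by rw [Finset.card_image_of_injective _ hXinj]; omega))
  refine le_trans ?_ hf
  refine le_trans (Finset.card_le_card ?_)
    (Finset.card_image_le (s := A.image (fun y => y / δ) + A.image (fun y => y / δ))
      (f := fun t => δ * t))
  intro s hs
  obtain ⟨x, hx, y, hy, rfl⟩ := Finset.mem_add.mp hs
  refine Finset.mem_image.mpr ⟨x / δ + y / δ, Finset.mem_add.mpr ⟨_, Finset.mem_image_of_mem _ hx,
    _, Finset.mem_image_of_mem _ hy, rfl⟩, ?_⟩
  field_simp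

/-- **Main theorem.**
(1) If `m ∈ A` and every difference of elements of `A` is at most `2|m|` times every nonzero
difference in absolute value (diameter at most `2|m|` times the least gap), then
`|A + A| ≤ |A + mA| ≤ |A·A + A|`.
(2) In particular `|A + A| ≤ |A·A + A|` if distinct elements of `A` differ by at least one,
(3) and for all finite sets of integers.
(4) If some `m ∈ A` is not a quotient of two differences of elements of `A`, then
`|A|² ≤ |A·A + A|`. -/
theorem result :
    (∀ A : Finset ℝ, ∀ m ∈ A,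
      (∀ x ∈ A, ∀ y ∈ A, ∀ z ∈ A, ∀ w ∈ A, z ≠ w → |x - y| ≤ 2 * |m| * |z - w|) →
      (A + A).card ≤ (A + A.image (fun a => m * a)).card ∧ (A + A).card ≤ (A * A + A).card) ∧
    (∀ A : Finset ℝ, (∀ x ∈ A, ∀ y ∈ A, x ≠ y → 1 ≤ |x - y|) →
      (A + A).card ≤ (A * A + A).card) ∧
    (∀ A : Finset ℤ, (A + A).card ≤ (A * A + A).card) ∧
    (∀ A : Finset ℝ, ∀ m ∈ A,
      (∀ x ∈ A, ∀ y ∈ A, ∀ z ∈ A, ∀ w ∈ A, z ≠ w → m ≠ (x - y) / (z - w)) →
      A.card ^ 2 ≤ (A * A + A).card) := by
  classical
  have sub : ∀ A : Finset ℝ, ∀ m ∈ A, A + A.image (fun a => m * a) ⊆ A * A + A := by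
    intro A m hm s hs
    obtain ⟨x, hx, y, hy, rfl⟩ := Finset.mem_add.mp hs
    obtain ⟨a, ha, rfl⟩ := Finset.mem_image.mp hy
    exact Finset.mem_add.mpr ⟨m * a, Finset.mul_mem_mul hm ha, x, hx, add_comm _ _⟩
  have full : ∀ A : Finset ℝ, (∀ x ∈ A, ∀ y ∈ A, x ≠ y → 1 ≤ |x - y|) →
      (A + A).card ≤ (A * A + A).card := by
    intro A hA
    rcases A.eq_empty_or_nonempty with h | h
    · rw [h]; simp
    · obtain ⟨m, hm, hmax⟩ := A.exists_max_image (fun x => |x|) h
      refine (general A m hm ?_).trans (Finset.card_le_card (sub A m hm))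
      intro x hx y hy z hz w hw hzw
      have h1 := hmax x hx
      have h2 := hmax y hy
      have h3 := hA z hz w hw hzw
      have h4 : |x - y| ≤ |x| + |y| := abs_sub x y
      have h5 : 0 ≤ |m| := abs_nonneg m
      nlinarith
  refine ⟨fun A m hm h => ⟨general A m hm h, (general A m hm h).trans
    (Finset.card_le_card (sub A m hm))⟩, full, ?_, ?_⟩
  · intro A
    have hinj : Function.Injective (Int.castRingHom ℝ) := Int.cast_injective
    have h := full (A.image (Int.castRingHom ℝ)) (by
      intro x hx y hy hxy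
      obtain ⟨a, ha, rfl⟩ := Finset.mem_image.mp hx
      obtain ⟨b, hb, rfl⟩ := Finset.mem_image.mp hy
      have hab : a - b ≠ 0 := by
        intro h
        exact hxy (by rw [sub_eq_zero.mp h])
      have : 1 ≤ |a - b| := Int.one_le_abs hab
      have h2 : (1:ℝ) ≤ ((|a - b| : ℤ) : ℝ) := by exact_mod_cast this
      simpa using h2)
    rw [← Finset.image_mul, ← Finset.image_add, ← Finset.image_add,
      Finset.card_image_of_injective _ hinj, Finset.card_image_of_injective _ hinj] at h
    exact h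
  · intro A m hm hq
    refine le_trans ?_ (Finset.card_le_card (sub A m hm))
    have hinj : Set.InjOn (fun p : ℝ × ℝ => p.1 + m * p.2) ((A ×ˢ A : Finset (ℝ × ℝ)) : Set (ℝ × ℝ)) := by
      rintro ⟨x, y⟩ h ⟨x', y'⟩ h' he
      have h := Finset.mem_product.mp (Finset.mem_coe.mp h)
      have h' := Finset.mem_product.mp (Finset.mem_coe.mp h')
      simp only at he h h'
      by_cases hy : y = y'
      · subst hy
        have : x = x' := by linarith
        rw [this]
      · exfalso
        refine hq x h.1 x' h'.1 y' h'.2 y h.2 (Ne.symm hy) ?_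
        rw [eq_div_iff (sub_ne_zero.mpr (Ne.symm hy))]
        linarith
    have hc := Finset.card_image_of_injOn hinj
    rw [Finset.card_product] at hc
    rw [pow_two, ← hc]
    apply Finset.card_le_card
    intro s hs
    obtain ⟨⟨x, y⟩, hxy, rfl⟩ := Finset.mem_image.mp hs
    have hxy' := Finset.mem_product.mp hxy
    exact Finset.mem_add.mpr ⟨x, hxy'.1, m * y, Finset.mem_image_of_mem _ hxy'.2, rfl⟩

end Pool.Agent.Results.MP_2b52df_co.SeparatedSets
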